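import Pool.Agent.PQP.StmtsV
import Pool.Agent.FLX.Stmts

/-!
Row SMF of table pqp: smoothness of the density of a solution.
-/

set_option autoImplicit false

open scoped InnerProductSpace Topology ContDiff Manifold
open MeasureTheory Filter Set

noncomputable section

namespace Pool.Agent.PQP.H77

open Pool.Agent.Helper42_Paneitz Pool.Agent.Helper82_Vir Pool.Agent.FLX

theorem dd_form {W u f : S4 → ℝ} (hW : Sm W) (hWpos : ∀ x, 0 < W x) (hu : Sm u) (B : ℝ)
    (hf : ∀ x, f x = B * W x * Real.exp (4 * u x)) (x : S4) (v : E5) :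
    dd f x v = f x * (dlog W x v + 4 * dd u x v) := by
  have hx := S4_ne_zero x
  have h1 : HasFDerivAt (radialExt W) (fderiv ℝ (radialExt W) (x : E5)) (x : E5) :=
    (sm_diffAt hW hx).hasFDerivAt
  have h2 : HasFDerivAt (radialExt u) (fderiv ℝ (radialExt u) (x : E5)) (x : E5) :=
    (sm_diffAt hu hx).hasFDerivAt
  have e1 : radialExt f =ᶠ[𝓝 (x : E5)]
      fun z => B * radialExt W z * Real.exp (4 * radialExt u z) := by
    filter_upwards [eventually_ne_zero hx] with z hz
    rw [radialExt_apply f hz, radialExt_apply W hz, radialExt_apply u hz, hf]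
  have e2 : radialExt (fun z => Real.log (W z)) =ᶠ[𝓝 (x : E5)]
      fun z => Real.log (radialExt W z) := by
    filter_upwards [eventually_ne_zero hx] with z hz
    rw [radialExt_apply _ hz, radialExt_apply W hz]
  have h3 := (h1.const_mul B).mul ((h2.const_mul 4).exp)
  have h4 := h1.log (by
    rw [radialExt_coe]
    exact (hWpos x).ne')
  have h5 : dd f x v = (fderiv ℝ (fun z => B * radialExt W z * Real.exp (4 * radialExt u z))
      (x : E5)) v := by
    unfold dd
    rw [e1.fderiv_eq]
  have h6 : dlog W x v = (fderiv ℝ (fun z => Real.log (radialExt W z)) (x : E5)) v := by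
    unfold dlog dd
    rw [e2.fderiv_eq]
  have h7 := h3.fderiv
  have h8 := h4.fderiv
  have h9 : (fun z => B * radialExt W z * Real.exp (4 * radialExt u z)) =
      (fun z => B * radialExt W z) * fun z => Real.exp (4 * radialExt u z) := rfl
  rw [h5, h6, h8, h9, h7, hf x]
  have hW0 := (hWpos x).ne'
  simp only [add_apply, smul_apply, smul_eq_mul,
    radialExt_coe]
  unfold dd
  field_simp
  ring

/-- SMF. -/
theorem smf (hpot : PotStmt) (hreg : RegStmt) (hslv : SlvStmt) : SmfStmt := by
  intro W f hW hWpos hsol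
  obtain ⟨⟨hfc, hfp, hf1⟩, A, hA, hf⟩ := hsol
  obtain ⟨c₀, -, hp⟩ := hpot
  obtain ⟨hpc, hpe, -⟩ := hp f hfc
  have hms : msig ≠ 0 := msig_ne
  have hfu : ∀ x, f x = (A * Real.exp (4 * (c₀ * avg f))) * W x *
      Real.exp (4 * (6 * msig * K f x)) := by
    intro x
    rw [hf x, hpe x, mul_add, Real.exp_add]
    ring
  have huK : ∀ x, 6 * msig * K f x = K (fun y => (6 * msig *
      (A * Real.exp (4 * (c₀ * avg f))) * W y) * Real.exp (4 * (6 * msig * K f y))) x + 0 := by
    intro x
    have e : (fun y => (6 * msig * (A * Real.exp (4 * (c₀ * avg f))) * W y) *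
        Real.exp (4 * (6 * msig * K f y))) = fun y => (6 * msig) * f y := by
      funext y
      rw [hfu y]
      ring
    rw [e, K_const_mul, add_zero]
  have huc : Continuous fun x => 6 * msig * K f x := by
    have e : (fun x => 6 * msig * K f x) = fun x => pot f x - c₀ * avg f := by
      funext x
      rw [hpe x]
      ring
    rw [e]
    exact hpc.sub continuous_const
  have hum : Sm fun x => 6 * msig * K f x :=
    hreg (fun y => 6 * msig * (A * Real.exp (4 * (c₀ * avg f))) * W y) _ 0 (hW.smul _) huc huK
  have hfm : Sm f := by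
    have h1 := sm_mul (hW.smul (A * Real.exp (4 * (c₀ * avg f))))
      (sm_comp hum (φ := fun t => Real.exp (4 * t)) (by fun_prop))
    have e : f = fun x => (A * Real.exp (4 * (c₀ * avg f))) * W x *
      Real.exp (4 * (6 * msig * K f x)) := funext hfu
    rw [e]
    exact h1
  refine ⟨hfm, fun x => 6 * msig * K f x, hum, ?_, ?_⟩
  · intro x
    have e : (fun x => 6 * msig * K f x) = K (fun y => 6 * msig * f y) := by
      funext x
      rw [K_const_mul]
    rw [e, hslv _ (hfm.smul _) x, avg_const_mul]
    have h2 : avg f = 1 / msig := by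
      unfold avg
      rw [hf1]
    rw [h2]
    field_simp
    ring
  · intro x v
    exact dd_form hW hWpos hum _ hfu x v

end Pool.Agent.PQP.H77
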