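import Pool.Agent.PQP.StmtsN

/-!
Row WTL of table pqp: the logarithmic derivative of `exp (-t ψ)`.
-/

set_option autoImplicit false

open scoped InnerProductSpace Topology ContDiff Manifold
open MeasureTheory Filter Set

noncomputable section

namespace Pool.Agent.PQP.H77

open Pool.Agent.Helper42_Paneitz Pool.Agent.Helper82_Vir Pool.Agent.FLX

/-- WTL. -/
theorem wtl : WtlStmt := by
  intro ψ hψ
  obtain ⟨L1, hL1, hb1⟩ := exists_dd_bound hψ
  obtain ⟨L2, hL2, hb2⟩ := sm_lipschitz hψ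
  have hlog : ∀ t : ℝ, (fun z => Real.log (Wt ψ t z)) = fun z => -(t * ψ z) := by
    intro t
    funext z
    unfold Wt
    rw [Real.log_exp]
  have hd : ∀ (t : ℝ) (x : S4) (v : E5), dlog (Wt ψ t) x v = - (t * dd ψ x v) := by
    intro t x v
    unfold dlog
    rw [hlog t]
    have h := dd_comp hψ (φ := fun s => -(t * s)) (by fun_prop) x v
    have h2 : deriv (fun s : ℝ => -(t * s)) (ψ x) = -t := by
      have h3 : HasDerivAt (fun s : ℝ => -(t * s)) (-(t * 1)) (ψ x) :=
        ((hasDerivAt_id _).const_mul t).neg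
      rw [h3.deriv, mul_one]
    rw [h, h2]
    ring
  have hsm : ∀ t : ℝ, Sm (Wt ψ t) := fun t =>
    sm_comp hψ (φ := fun s => Real.exp (-(t * s))) (by fun_prop)
  have hpos : ∀ (t : ℝ) x, 0 < Wt ψ t x := fun t x => Real.exp_pos _
  have hb : ∀ (x : S4) (v : E5), |dd ψ x v| ≤ (L1 + L2 + 1) * ‖v‖ := by
    intro x v
    refine (hb1 x v).trans ?_
    have := norm_nonneg v
    nlinarith
  refine ⟨hd, fun t => ⟨hsm t, hpos t⟩, L1 + L2 + 1, by positivity, ?_, hb, ?_⟩
  · intro t ht
    refine ⟨hsm t, hpos t, fun x v => ?_⟩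
    have h : dd (fun z => Real.log (Wt ψ t z)) x v = - (t * dd ψ x v) := hd t x v
    rw [h, abs_neg, abs_mul, abs_of_nonneg ht, mul_assoc]
    exact mul_le_mul_of_nonneg_left (hb x v) ht
  · intro x y
    refine (hb2 x y).trans ?_
    have := norm_nonneg ((x : E5) - (y : E5))
    nlinarith

end Pool.Agent.PQP.H77
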